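import Pool.Agent.Run7.h991.MU.Iface

/-!
# Project MU (helper991), piece FINC: density in `C_0(Q)` from the uniqueness theorem (helper600)
-/

set_option autoImplicit false

open MeasureTheory Metric

namespace H991.MU

/-- a continuous functional which vanishes on a closed subspace and not at a point outside it -/
theorem exists_sep_h600 {E : Type} [NormedAddCommGroup E] [NormedSpace ℂ E] (N : Submodule ℂ E)
    (hN : IsClosed (N : Set E)) (f : E) (hf : f ∉ N) :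
    ∃ l : E →L[ℂ] ℂ, (∀ a ∈ N, l a = 0) ∧ l f ≠ 0 := by
  obtain ⟨l, u, h1, h2⟩ := RCLike.geometric_hahn_banach_closed_point (𝕜 := ℂ) (s := (N : Set E))
    (N.restrictScalars ℝ).convex hN hf
  have h0 : (0:ℝ) < u := by
    have := h1 0 N.zero_mem
    simpa using this
  have hz : ∀ a ∈ N, l a = 0 := by
    intro a ha
    by_contra hne
    have hr : 0 < ‖l a‖ := norm_pos_iff.2 hne
    obtain ⟨c, hc⟩ : ∃ c : ℂ, c = (((u / ‖l a‖ ^ 2 : ℝ)) : ℂ) * (starRingEnd ℂ) (l a) := ⟨_, rfl⟩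
    have h3 := h1 (c • a) (N.smul_mem c ha)
    rw [map_smul, smul_eq_mul, hc, mul_assoc, mul_comm ((starRingEnd ℂ) (l a)), Complex.mul_conj,
      Complex.normSq_eq_norm_sq, ← Complex.ofReal_mul] at h3
    have h4 : u / ‖l a‖ ^ 2 * ‖l a‖ ^ 2 = u := by field_simp
    rw [h4] at h3
    simp at h3
  refine ⟨l, hz, fun h => ?_⟩
  rw [h] at h2
  simp at h2
  linarith

theorem t_FINC (hMAIN : S_MAIN) (hKHOL : S_KHOL) (hC0D : S_C0D) : S_FINC := by
  intro Ω ε δ hε hε1 hδ hang hdens f hf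
  by_contra hnot
  obtain ⟨l, hl, hlf⟩ := exists_sep_h600 _ (Submodule.isClosed_topologicalClosure _) f hnot
  obtain ⟨K, hK, hKn, hKm⟩ := hKHOL
  have hl0 : 0 < ‖l‖ := by
    apply norm_pos_iff.2
    rintro rfl
    exact hlf rfl
  have hlc : ((‖l‖ : ℝ) : ℂ) ≠ 0 := by exact_mod_cast hl0.ne'
  -- the holomorphic function
  obtain ⟨F, hF⟩ : ∃ F : ℂ × ℂ → ℂ, F = fun p => ((‖l‖ : ℝ) : ℂ)⁻¹ * l (K p) := ⟨_, rfl⟩
  have hBH : BH F := by
    constructor
    · rw [hF]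
      intro p hp
      exact ((l.differentiable.differentiableAt).comp_differentiableWithinAt p (hK p hp)).const_mul _
    · intro p hp
      rw [hF]
      show ‖((‖l‖ : ℝ) : ℂ)⁻¹ * l (K p)‖ ≤ 1
      rw [norm_mul, norm_inv, Complex.norm_real, norm_norm]
      have h1 : ‖l (K p)‖ ≤ ‖l‖ * 1 := (l.le_opNorm _).trans (mul_le_mul_of_nonneg_left (hKn p hp) hl0.le)
      rw [inv_mul_le_iff₀ hl0]
      exact h1
  have hzero : ∀ p ∈ Ω, F ((p.1 : ℂ), (p.2 : ℂ)) = 0 := by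
    intro p hp
    obtain ⟨h1, h2, _, _⟩ := hang p hp
    rw [hF]
    show ((‖l‖ : ℝ) : ℂ)⁻¹ * l (K ((p.1 : ℂ), (p.2 : ℂ))) = 0
    rw [hKm p.1 p.2 h1 h2, hl _ (Submodule.le_topologicalClosure _ (Submodule.subset_span ⟨p, hp, rfl⟩)),
      mul_zero]
  have hall := hMAIN Ω ε δ hε hε1 hδ hang hdens F hBH hzero
  have hmon : ∀ m n : ℕ, 1 ≤ m → 1 ≤ n → l (mon m n) = 0 := by
    intro m n hm hn
    have h1 := hall ((m : ℂ), (n : ℂ)) (by
      rw [mem_RH2]
      simp only [Complex.natCast_re]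
      exact ⟨by exact_mod_cast hm, by exact_mod_cast hn⟩)
    rw [hF] at h1
    have h2 : ((‖l‖ : ℝ) : ℂ)⁻¹ * l (K ((m : ℂ), (n : ℂ))) = 0 := h1
    rw [hKm m n hm hn] at h2
    exact (mul_eq_zero.1 h2).resolve_left (inv_ne_zero hlc)
  have hle : (Submodule.span ℂ {g : C(Q, ℂ) | ∃ m n : ℕ, 1 ≤ m ∧ 1 ≤ n ∧ g = mon m n}).topologicalClosure
      ≤ LinearMap.ker (l : C(Q, ℂ) →ₗ[ℂ] ℂ) := by
    apply Submodule.topologicalClosure_minimal
    · rw [Submodule.span_le]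
      rintro g ⟨m, n, hm, hn, rfl⟩
      exact hmon m n hm hn
    · exact l.isClosed_ker
  exact hlf (hle (hC0D f hf))

end H991.MU
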